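import Pool.Agent.H43.BZ.Stm

/-!
# `G4` of the blow-up criterion for the non-cutoff Boltzmann equation

Doubling of the polar angle followed by the symmetrisation `σ → -σ`.
-/

set_option autoImplicit false

open MeasureTheory Metric Set
open scoped RealInnerProductSpace ENNReal

namespace Pool.Agent.H47.BZ

open Pool.Agent.H43.BZ

theorem bnd_meas {d : ℕ} (C : ℝ) (v w : E d) : Measurable (bnd C v w) := by
  classical
  have h1 : Measurable fun x : ℝ =>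
      (if Slow v w then (1 + x) / 2 else if 0 < x then 1 else 0 : ℝ) := by
    by_cases h : Slow v w
    · simp only [h, if_true]
      fun_prop
    · simp only [h, if_false]
      exact Measurable.ite (measurableSet_lt measurable_const measurable_id)
        measurable_const measurable_const
  have h2 : Measurable fun x : ℝ =>
      C * (min 1 ((1 - |x|) * (1 + ‖w‖) ^ 2) / (1 + (‖v - w‖ / (1 + ‖w‖)) ^ 2)) := by
    have h3 : Measurable fun x : ℝ => |x| := continuous_abs.measurable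
    exact (((measurable_const.min ((measurable_const.sub h3).mul_const _))).div_const _).const_mul _
  have h3 : bnd C v w = fun x : ℝ =>
      (if Slow v w then (1 + x) / 2 else if 0 < x then 1 else 0 : ℝ) +
      C * (min 1 ((1 - |x|) * (1 + ‖w‖) ^ 2) / (1 + (‖v - w‖ / (1 + ‖w‖)) ^ 2)) := by
    funext x
    rfl
  rw [h3]
  exact h1.add h2

theorem bnd_nonneg {d : ℕ} {C : ℝ} (hC : 0 ≤ C) (v w : E d) {x : ℝ} (hx : |x| ≤ 1) :
    0 ≤ bnd C v w x := by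
  unfold bnd
  have h1 : (0 : ℝ) ≤ min 1 ((1 - |x|) * (1 + ‖w‖) ^ 2) :=
    le_min zero_le_one (mul_nonneg (by linarith) (by positivity))
  have h2 : 0 ≤ C * (min 1 ((1 - |x|) * (1 + ‖w‖) ^ 2) / (1 + (‖v - w‖ / (1 + ‖w‖)) ^ 2)) :=
    mul_nonneg hC (div_nonneg h1 (by positivity))
  refine add_nonneg ?_ h2
  split_ifs
  · linarith [(abs_le.mp hx).1]
  · exact zero_le_one
  · exact le_refl _

theorem bnd_add {d : ℕ} (C : ℝ) (v w : E d) (x : ℝ) :
    bnd C v w x + bnd C v w (-x) ≤ 1 + 2 * C *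
      (min 1 ((1 - |x|) * (1 + ‖w‖) ^ 2) / (1 + (‖v - w‖ / (1 + ‖w‖)) ^ 2)) := by
  unfold bnd
  rw [abs_neg]
  set u := min 1 ((1 - |x|) * (1 + ‖w‖) ^ 2) / (1 + (‖v - w‖ / (1 + ‖w‖)) ^ 2) with hu
  by_cases h : Slow v w
  · rw [if_pos h, if_pos h]
    linarith
  · rw [if_neg h, if_neg h]
    by_cases h1 : 0 < x
    · have h2 : ¬ 0 < -x := by linarith
      rw [if_pos h1, if_neg h2]
      linarith
    · rw [if_neg h1]
      by_cases h2 : 0 < -x
      · rw [if_pos h2]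
        linarith
      · rw [if_neg h2]
        linarith

theorem G4 (hd : S_DBL) (hr : S_ROT) : S_G4 := by
  intro d hd2 C hC b hb hb0 v w hvw
  have hz : v - w ≠ 0 := sub_ne_zero.mpr hvw
  have hzn : 0 < ‖v - w‖ := norm_pos_iff.mpr hz
  set e : E d := ‖v - w‖⁻¹ • (v - w) with he
  have hen : ‖e‖ = 1 := by
    rw [he, norm_smul, norm_inv, norm_norm]
    exact inv_mul_cancel₀ hzn.ne'
  have hc : ∀ σ : E d, cosa (v - w) σ = ⟪e, σ⟫ := by
    intro σ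
    rw [he, real_inner_smul_left]
    unfold cosa
    rw [div_eq_inv_mul]
  have hc1 : ∀ σ : S d, |⟪e, (σ : E d)⟫| ≤ 1 := by
    intro σ
    have h1 := abs_real_inner_le_norm e (σ : E d)
    rw [hen, norm_eq_of_mem_sphere σ] at h1
    linarith
  simp only [hc]
  have hB := bnd_meas C v w
  -- the doubling formula
  have h1 := hd d hd2 e hen (fun x => ENNReal.ofReal ((b x + b (-x)) * bnd C v w x))
    (((hb.add (hb.comp measurable_neg)).mul hB).ennreal_ofReal)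
  have h2 : (∫⁻ σ : S d, (if 0 < ⟪e, (σ : E d)⟫ then
      ENNReal.ofReal (2 ^ (d - 1) * ⟪e, (σ : E d)⟫ ^ (d - 2) *
        (b (2 * ⟪e, (σ : E d)⟫ ^ 2 - 1) + b (1 - 2 * ⟪e, (σ : E d)⟫ ^ 2)) *
        bnd C v w (2 * ⟪e, (σ : E d)⟫ ^ 2 - 1)) else 0) ∂surf d) =
      ∫⁻ σ : S d, ENNReal.ofReal ((b ⟪e, (σ : E d)⟫ + b (-⟪e, (σ : E d)⟫)) *
        bnd C v w ⟪e, (σ : E d)⟫) ∂surf d := by
    rw [h1]
    refine lintegral_congr fun σ => ?_
    by_cases hp : 0 < ⟪e, (σ : E d)⟫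
    · rw [if_pos hp, if_pos hp, ← ENNReal.ofReal_mul (by positivity)]
      have h3 : -(2 * ⟪e, (σ : E d)⟫ ^ 2 - 1) = 1 - 2 * ⟪e, (σ : E d)⟫ ^ 2 := by ring
      rw [h3, mul_assoc (2 ^ (d - 1) * ⟪e, (σ : E d)⟫ ^ (d - 2))]
    · rw [if_neg hp, if_neg hp]
  rw [h2]
  -- splitting
  have hm : Measurable fun σ : S d => ⟪e, (σ : E d)⟫ :=
    (continuous_const.inner continuous_subtype_val).measurable
  have hM : Measurable fun σ : S d =>
      ENNReal.ofReal (b ⟪e, (σ : E d)⟫ * bnd C v w ⟪e, (σ : E d)⟫) :=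
    ((hb.comp hm).mul (hB.comp hm)).ennreal_ofReal
  have h3 : (∫⁻ σ : S d, ENNReal.ofReal ((b ⟪e, (σ : E d)⟫ + b (-⟪e, (σ : E d)⟫)) *
        bnd C v w ⟪e, (σ : E d)⟫) ∂surf d) =
      (∫⁻ σ : S d, ENNReal.ofReal (b ⟪e, (σ : E d)⟫ * bnd C v w ⟪e, (σ : E d)⟫) ∂surf d) +
      ∫⁻ σ : S d, ENNReal.ofReal (b (-⟪e, (σ : E d)⟫) * bnd C v w ⟪e, (σ : E d)⟫) ∂surf d := by
    rw [← lintegral_add_left hM]
    refine lintegral_congr fun σ => ?_
    have h4 := bnd_nonneg hC v w (hc1 σ)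
    rw [add_mul, ENNReal.ofReal_add (mul_nonneg (hb0 _) h4) (mul_nonneg (hb0 _) h4)]
  have h5 : (∫⁻ σ : S d, ENNReal.ofReal (b (-⟪e, (σ : E d)⟫) *
        bnd C v w ⟪e, (σ : E d)⟫) ∂surf d) =
      ∫⁻ σ : S d, ENNReal.ofReal (b ⟪e, (σ : E d)⟫ * bnd C v w (-⟪e, (σ : E d)⟫)) ∂surf d := by
    have h6 := hr d (LinearIsometryEquiv.neg ℝ)
      (fun σ => ENNReal.ofReal (b (-⟪e, (σ : E d)⟫) * bnd C v w ⟪e, (σ : E d)⟫))
      (((hb.comp hm.neg).mul (hB.comp hm)).ennreal_ofReal)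
    rw [← h6]
    refine lintegral_congr fun σ => ?_
    have h7 : ⟪e, (LinearIsometryEquiv.neg ℝ : E d ≃ₗᵢ[ℝ] E d) (σ : E d)⟫ = -⟪e, (σ : E d)⟫ := by
      rw [LinearIsometryEquiv.coe_neg, inner_neg_right]
    simp only [h7, neg_neg]
  rw [h3, h5, ← lintegral_add_left hM]
  refine lintegral_mono fun σ => ?_
  have h8 := bnd_nonneg hC v w (hc1 σ)
  have h9 : |(-⟪e, (σ : E d)⟫)| ≤ 1 := by
    rw [abs_neg]
    exact hc1 σ
  have h10 := bnd_nonneg hC v w h9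
  show ENNReal.ofReal (b ⟪e, (σ : E d)⟫ * bnd C v w ⟪e, (σ : E d)⟫) +
    ENNReal.ofReal (b ⟪e, (σ : E d)⟫ * bnd C v w (-⟪e, (σ : E d)⟫)) ≤ _
  rw [← ENNReal.ofReal_add (mul_nonneg (hb0 _) h8) (mul_nonneg (hb0 _) h10), ← mul_add]
  exact ENNReal.ofReal_le_ofReal (mul_le_mul_of_nonneg_left (bnd_add C v w _) (hb0 _))

end Pool.Agent.H47.BZ
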