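import Pool.Agent.H43.BZ.Stm4

/-!
# `KKRLE`: comparison of the weights of the collision moment at different velocity scales
-/

set_option autoImplicit false

open MeasureTheory Metric Set
open scoped RealInnerProductSpace ENNReal

namespace Pool.Agent.H47.BZ

open Pool.Agent.H43.BZ

/-- The comparison for two scales. -/
theorem kkR_le {d : ℕ} (γ s : ℝ) (hs : 0 < s) (R R' : ℝ) (hR : 0 < R) (hRR : R ≤ R')
    (v w : E d) : kkR γ s R v w ≤ (R' / R) ^ (2 * s) * kkR γ s R' v w := by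
  have hR' : 0 < R' := hR.trans_le hRR
  have ha : 0 ≤ ‖w‖ := norm_nonneg w
  have hr : 0 ≤ ‖v - w‖ := norm_nonneg (v - w)
  have h2s : 0 ≤ 2 * s := by linarith
  unfold kkR
  have h1 : (1 + ‖w‖ / R) ^ (2 * s) ≤ (R' / R) ^ (2 * s) * (1 + ‖w‖ / R') ^ (2 * s) := by
    rw [← Real.mul_rpow (by positivity) (by positivity)]
    refine Real.rpow_le_rpow (by positivity) ?_ h2s
    have h2 : R' / R * (1 + ‖w‖ / R') = R' / R + ‖w‖ / R := by
      field_simp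
    rw [h2]
    have h3 : 1 ≤ R' / R := (one_le_div hR).mpr hRR
    linarith
  have h4 : (‖v - w‖ / (R' + ‖w‖)) ^ 2 ≤ (‖v - w‖ / (R + ‖w‖)) ^ 2 := by
    refine pow_le_pow_left₀ (by positivity) ?_ 2
    exact div_le_div_of_nonneg_left hr (by positivity) (by linarith)
  have h5 : 0 ≤ ‖v - w‖ ^ γ := Real.rpow_nonneg hr γ
  calc ‖v - w‖ ^ γ * (1 + ‖w‖ / R) ^ (2 * s) / (1 + (‖v - w‖ / (R + ‖w‖)) ^ 2)
      ≤ ‖v - w‖ ^ γ * ((R' / R) ^ (2 * s) * (1 + ‖w‖ / R') ^ (2 * s)) /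
          (1 + (‖v - w‖ / (R + ‖w‖)) ^ 2) := by
        refine div_le_div_of_nonneg_right ?_ (by positivity)
        exact mul_le_mul_of_nonneg_left h1 h5
    _ ≤ ‖v - w‖ ^ γ * ((R' / R) ^ (2 * s) * (1 + ‖w‖ / R') ^ (2 * s)) /
          (1 + (‖v - w‖ / (R' + ‖w‖)) ^ 2) := by
        refine div_le_div_of_nonneg_left (by positivity) (by positivity) ?_
        linarith
    _ = (R' / R) ^ (2 * s) * (‖v - w‖ ^ γ * (1 + ‖w‖ / R') ^ (2 * s) /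
          (1 + (‖v - w‖ / (R' + ‖w‖)) ^ 2)) := by ring

theorem KKRLE : S_KKRLE := by
  intro d hd γ s hs
  refine ⟨fun R R' hR hRR v w => kkR_le γ s hs R R' hR hRR v w, fun R hR => ?_⟩
  have hone : ∀ v w : E d, kkR γ s 1 v w = kk γ s v w := by
    intro v w
    unfold kkR kk
    rw [div_one]
  rcases le_total R 1 with h | h
  · refine ⟨(1 / R) ^ (2 * s), by positivity, fun v w => ?_⟩
    rw [← hone]
    exact kkR_le γ s hs R 1 hR h v w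
  · refine ⟨R ^ 2, by positivity, fun v w => ?_⟩
    have ha : 0 ≤ ‖w‖ := norm_nonneg w
    have hr : 0 ≤ ‖v - w‖ := norm_nonneg (v - w)
    have h2s : 0 ≤ 2 * s := by linarith
    have h5 : 0 ≤ ‖v - w‖ ^ γ := Real.rpow_nonneg hr γ
    unfold kkR kk
    have h1 : (1 + ‖w‖ / R) ^ (2 * s) ≤ (1 + ‖w‖) ^ (2 * s) := by
      refine Real.rpow_le_rpow (by positivity) ?_ h2s
      have h2 : ‖w‖ / R ≤ ‖w‖ := div_le_self ha h
      linarith
    have h3 : ‖v - w‖ / (1 + ‖w‖) ≤ R * (‖v - w‖ / (R + ‖w‖)) := by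
      rw [mul_div_assoc', div_le_div_iff₀ (by positivity) (by positivity)]
      have h4 : R + ‖w‖ ≤ R * (1 + ‖w‖) := by nlinarith
      calc ‖v - w‖ * (R + ‖w‖) ≤ ‖v - w‖ * (R * (1 + ‖w‖)) := mul_le_mul_of_nonneg_left h4 hr
        _ = R * ‖v - w‖ * (1 + ‖w‖) := by ring
    have h6 : 1 + (‖v - w‖ / (1 + ‖w‖)) ^ 2 ≤ R ^ 2 * (1 + (‖v - w‖ / (R + ‖w‖)) ^ 2) := by
      have h7 : (‖v - w‖ / (1 + ‖w‖)) ^ 2 ≤ (R * (‖v - w‖ / (R + ‖w‖))) ^ 2 :=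
        pow_le_pow_left₀ (by positivity) h3 2
      rw [mul_pow] at h7
      have h8 : 1 ≤ R ^ 2 := one_le_pow₀ h
      linarith
    rw [mul_div_assoc', div_le_div_iff₀ (by positivity) (by positivity)]
    have h9 : ‖v - w‖ ^ γ * (1 + ‖w‖ / R) ^ (2 * s) ≤ ‖v - w‖ ^ γ * (1 + ‖w‖) ^ (2 * s) :=
      mul_le_mul_of_nonneg_left h1 h5
    calc ‖v - w‖ ^ γ * (1 + ‖w‖ / R) ^ (2 * s) * (1 + (‖v - w‖ / (1 + ‖w‖)) ^ 2)
        ≤ ‖v - w‖ ^ γ * (1 + ‖w‖) ^ (2 * s) *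
            (R ^ 2 * (1 + (‖v - w‖ / (R + ‖w‖)) ^ 2)) :=
          mul_le_mul h9 h6 (by positivity) (by positivity)
      _ = R ^ 2 * (‖v - w‖ ^ γ * (1 + ‖w‖) ^ (2 * s)) * (1 + (‖v - w‖ / (R + ‖w‖)) ^ 2) := by
          ring

end Pool.Agent.H47.BZ
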